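import Pool.Agent.P.MP_59d9ab_co.Cap

set_option autoImplicit false

namespace Pool.Agent.Results.MP_59d9ab_co.HalfCube

open Pool.Agent.P.MP_59d9ab_co

/-- Over every finite field with `q` elements, a subset of the 4-dimensional affine space with no
three distinct collinear points has at most `q^3/2 + 3 q^2` points. -/
theorem result (F : Type) [Field F] [Fintype F] (S : Finset (Fin 4 → F))
    (hS : ∀ x ∈ S, ∀ y ∈ S, ∀ z ∈ S, x ≠ y → x ≠ z → y ≠ z →
      ¬ Collinear F ({x, y, z} : Set (Fin 4 → F))) :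
    (S.card : ℝ) ≤ (Fintype.card F : ℝ) ^ 3 / 2 + 3 * (Fintype.card F : ℝ) ^ 2 := by
  classical
  by_contra hcon
  rw [not_le] at hcon
  have h2 : 2 ≤ Fintype.card F := Fintype.one_lt_card
  have hV : (Fintype.card (Fin 4 → F) : ℝ) = (Fintype.card F : ℝ) ^ 4 := by simp
  rcases h2.eq_or_lt with h | h
  · have h3 : (S.card : ℝ) ≤ Fintype.card (Fin 4 → F) := by exact_mod_cast S.card_le_univ
    rw [hV, ← h] at h3
    rw [← h] at hcon
    norm_num at h3 hcon
    have : (S.card : ℝ) ≤ 16 := by exact_mod_cast h3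
    linarith
  · have h3 : (3 : ℝ) ≤ Fintype.card F := by exact_mod_cast h
    obtain ⟨M, hM1, hM2⟩ := cap_ineq (F := F) hS (Fintype.card F) ((Fintype.card F : ℝ) ^ 5)
      S.card rfl (by rw [hV]; ring) rfl (by nlinarith [pow_pos (by linarith : (0 : ℝ) < Fintype.card F) 3])
    exact arith _ _ M h3 hcon hM1 hM2

end Pool.Agent.Results.MP_59d9ab_co.HalfCube
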