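import Pool.Agent.P.MP_59d9ab_co.LowNum

set_option autoImplicit false

namespace Pool.Agent.Results.MP_59d9ab_co.ThreeSquares

open Pool.Agent.P.MP_59d9ab_co.Low

/-- Over every finite field of odd order `q` the 4-dimensional affine space contains a set of at
least `3 q^2 - 16 q - 9` points with no three distinct points collinear. -/
theorem result (F : Type) [Field F] [Fintype F] (hF : Odd (Fintype.card F)) :
    ∃ S : Finset (Fin 4 → F),
      (∀ x ∈ S, ∀ y ∈ S, ∀ z ∈ S, x ≠ y → x ≠ z → y ≠ z →
        ¬ Collinear F ({x, y, z} : Set (Fin 4 → F))) ∧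
      3 * (Fintype.card F : ℝ) ^ 2 - 16 * (Fintype.card F : ℝ) - 9 ≤ (S.card : ℝ) := by
  classical
  have hc : ringChar F ≠ 2 := by
    intro h
    have h1 := FiniteField.even_card_of_char_two h
    have h2 := Nat.odd_iff.1 hF
    omega
  rcases lt_or_ge (Fintype.card F) 4 with h | h
  · refine ⟨∅, by simp, ?_⟩
    have h1 : (Fintype.card F : ℝ) ≤ 4 := by exact_mod_cast h.le
    have h2 : (0 : ℝ) ≤ Fintype.card F := Nat.cast_nonneg _
    simp only [Finset.card_empty, Nat.cast_zero]
    nlinarith
  · obtain ⟨θ⟩ : Nonempty (Fin 4 ↪ F) := Function.Embedding.nonempty_of_card_le (by simpa using h)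
    obtain ⟨e, he⟩ := FiniteField.exists_nonsquare hc
    have he0 : e ≠ 0 := by rintro rfl; exact he ⟨0, by simp⟩
    exact ⟨capSet θ e, capSet_cap (Ring.two_ne_zero hc) θ.injective he,
      capSet_large hc θ.injective he0⟩

end Pool.Agent.Results.MP_59d9ab_co.ThreeSquares
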